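import Mathlib

/-! A small verified checker for case trees with Farkas certificates (six real unknowns). -/

namespace Pool.Agent.P.MP_e1e3b8_co

/-- A linear inequality in six unknowns, strict or not. -/
structure Con where
  a0 : ℤ
  a1 : ℤ
  a2 : ℤ
  a3 : ℤ
  a4 : ℤ
  a5 : ℤ
  a6 : ℤ
  st : Bool

/-- The six unknowns. -/
structure Pt where
  w0 : ℝ
  w1 : ℝ
  w2 : ℝ
  w3 : ℝ
  w4 : ℝ
  w5 : ℝ

def Con.ev (c : Con) (w : Pt) : ℝ :=
  c.a0 * w.w0 + c.a1 * w.w1 + c.a2 * w.w2 + c.a3 * w.w3 + c.a4 * w.w4 + c.a5 * w.w5 + c.a6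

def Con.Holds (c : Con) (w : Pt) : Prop := 0 ≤ c.ev w ∧ (c.st = true → 0 < c.ev w)

def Con.zero : Con := ⟨0, 0, 0, 0, 0, 0, 0, false⟩

def Con.axpy (m : ℕ) (c acc : Con) : Con :=
  ⟨acc.a0 + m * c.a0, acc.a1 + m * c.a1, acc.a2 + m * c.a2, acc.a3 + m * c.a3,
    acc.a4 + m * c.a4, acc.a5 + m * c.a5, acc.a6 + m * c.a6, acc.st || (c.st && Nat.blt 0 m)⟩

def Con.absurd (c : Con) : Bool :=
  decide (c.a0 = 0) && decide (c.a1 = 0) && decide (c.a2 = 0) && decide (c.a3 = 0) &&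
    decide (c.a4 = 0) && decide (c.a5 = 0) && (decide (c.a6 < 0) || (decide (c.a6 = 0) && c.st))

def comb (cs : List Con) : ℕ → ℕ → Con → Con
  | 0, _, acc => acc
  | f + 1, n, acc =>
    bif Nat.beq n 0 then acc
    else comb cs f (n / 4294967296)
      (Con.axpy ((n % 4294967296) / 128) (cs.getD (n % 128) Con.zero) acc)

def AllHold (cs : List Con) (w : Pt) : Prop := ∀ c ∈ cs, c.Holds w

theorem Con.zero_holds (w : Pt) : Con.zero.Holds w := by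
  simp [Con.Holds, Con.zero, Con.ev]

theorem Con.axpy_holds (m : ℕ) (c acc : Con) (w : Pt) (hc : c.Holds w) (ha : acc.Holds w) :
    (Con.axpy m c acc).Holds w := by
  have e : (Con.axpy m c acc).ev w = acc.ev w + m * c.ev w := by
    simp only [Con.axpy, Con.ev]; push_cast; ring
  have hm : (0 : ℝ) ≤ m := Nat.cast_nonneg m
  refine ⟨?_, ?_⟩
  · rw [e]; have := mul_nonneg hm hc.1; linarith [ha.1]
  · intro h
    rw [e]
    simp only [Con.axpy, Bool.or_eq_true, Bool.and_eq_true, Nat.blt_eq] at h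
    rcases h with h | ⟨h1, h2⟩
    · have := mul_nonneg hm hc.1; linarith [ha.2 h]
    · have h3 : (0 : ℝ) < m := by exact_mod_cast h2
      have := mul_pos h3 (hc.2 h1); linarith [ha.1]

theorem Con.not_holds (c : Con) (w : Pt) (h : c.absurd = true) : ¬ c.Holds w := by
  simp only [Con.absurd, Bool.and_eq_true, Bool.or_eq_true, decide_eq_true_eq] at h
  obtain ⟨⟨⟨⟨⟨⟨h0, h1⟩, h2⟩, h3⟩, h4⟩, h5⟩, h6⟩ := h
  have e : c.ev w = c.a6 := by simp [Con.ev, h0, h1, h2, h3, h4, h5]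
  rintro ⟨ha, hb⟩
  rw [e] at ha hb
  rcases h6 with h6 | ⟨h6, h7⟩
  · have : (c.a6 : ℝ) < 0 := by exact_mod_cast h6
    linarith
  · have := hb h7
    rw [h6] at this; simp at this

theorem comb_holds (cs : List Con) (w : Pt) (h : AllHold cs w) :
    ∀ (f n : ℕ) (acc : Con), acc.Holds w → (comb cs f n acc).Holds w := by
  intro f
  induction f with
  | zero => intro n acc ha; exact ha
  | succ f ih =>
    intro n acc ha
    unfold comb
    cases Nat.beq n 0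
    · apply ih
      apply Con.axpy_holds _ _ _ _ _ ha
      rw [List.getD_eq_getElem?_getD]
      cases hx : cs[n % 128]? with
      | none => exact Con.zero_holds w
      | some c => exact h c (List.mem_of_getElem? hx)
    · exact ha

/-- Case trees. -/
inductive Tr where
  | lf : ℕ → Tr
  | br : ℕ → Tr → Tr
  | cs : Tr → Tr → Tr
  | nl : Tr

def chk (D : ℕ → List (List Con)) : Tr → List Con → List (List Con) → Bool
  | .lf n, cs, _ => (comb cs 10 n Con.zero).absurd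
  | .br d t, cs, _ => chk D t cs (D d)
  | .cs t1 t2, cs, ps =>
    match ps with
    | [] => false
    | p :: ps => chk D t1 (p ++ cs) [[]] && chk D t2 cs ps
  | .nl, _, ps => ps.isEmpty

theorem chk_sound (D : ℕ → List (List Con)) (w : Pt) (hD : ∀ d, ∃ p ∈ D d, AllHold p w) :
    ∀ (t : Tr) (cs : List Con) (ps : List (List Con)), chk D t cs ps = true → AllHold cs w →
      (∃ p ∈ ps, AllHold p w) → False := by
  intro t
  induction t with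
  | lf n =>
    intro cs ps h hc _
    exact Con.not_holds _ w h (comb_holds cs w hc 10 n _ (Con.zero_holds w))
  | br d t ih =>
    intro cs ps h hc _
    exact ih cs (D d) h hc (hD d)
  | cs t1 t2 ih1 ih2 =>
    intro cs ps h hc hp
    cases ps with
    | nil => simp [chk] at h
    | cons p ps =>
      simp only [chk, Bool.and_eq_true] at h
      obtain ⟨q, hq, hq2⟩ := hp
      rcases List.mem_cons.1 hq with rfl | hq
      · refine ih1 _ _ h.1 ?_ ⟨[], by simp, by simp [AllHold]⟩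
        intro c hc'
        rcases List.mem_append.1 hc' with h' | h'
        · exact hq2 c h'
        · exact hc c h'
      · exact ih2 _ _ h.2 hc ⟨q, hq, hq2⟩
  | nl =>
    intro cs ps h _ hp
    simp only [chk, List.isEmpty_iff] at h
    subst h
    simp at hp

/-- A linear inequality in the plane. -/
structure Con2 where
  a : ℤ
  b : ℤ
  c : ℤ
  st : Bool

def Con2.Holds (c : Con2) (x y : ℝ) : Prop :=
  0 ≤ c.a * x + c.b * y + c.c ∧ (c.st = true → 0 < c.a * x + c.b * y + c.c)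

def Con2.lift (s t : ℤ) (c : Con2) : Con :=
  ⟨c.a, c.a * s, c.a * t, c.b, c.b * s, c.b * t, c.c, c.st⟩

theorem Con2.lift_holds (s t : ℤ) (c : Con2) (w : Pt)
    (h : c.Holds (w.w0 + s * w.w1 + t * w.w2) (w.w3 + s * w.w4 + t * w.w5)) :
    (c.lift s t).Holds w := by
  have e : (c.lift s t).ev w =
      c.a * (w.w0 + s * w.w1 + t * w.w2) + c.b * (w.w3 + s * w.w4 + t * w.w5) + c.c := by
    simp only [Con2.lift, Con.ev]; push_cast; ring
  refine ⟨by rw [e]; exact h.1, fun h' => by rw [e]; exact h.2 h'⟩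

/-- the planar disjunctions -/
def D2 : ℕ → List (List Con2)
  | 0 => [[⟨-1, -7, 12, false⟩, ⟨1, -1, -4, false⟩, ⟨0, 1, 0, true⟩],
      [⟨-7, -4, 28, false⟩, ⟨7, -8, 56, false⟩, ⟨0, 1, 0, true⟩],
      [⟨2, 7, 24, false⟩, ⟨-2, 1, -8, false⟩, ⟨0, -1, 0, true⟩],
      [⟨5, 2, 20, false⟩, ⟨-5, 4, 40, false⟩, ⟨0, -1, 0, true⟩],
      [⟨0, 1, 0, false⟩, ⟨0, -1, 0, false⟩]]
  | 1 => [[⟨0, -1, 0, false⟩],
      [⟨-1, 0, 4, false⟩],
      [⟨1, 7, -12, false⟩],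
      [⟨-1, 1, 4, false⟩]]
  | 2 => [[⟨0, -1, 0, false⟩],
      [⟨1, 0, -4, false⟩],
      [⟨7, 4, -28, false⟩],
      [⟨-7, 8, -56, false⟩]]
  | 3 => [[⟨0, 1, 0, false⟩],
      [⟨1, 0, 4, false⟩],
      [⟨-2, -7, -24, false⟩],
      [⟨2, -1, 8, false⟩]]
  | 4 => [[⟨0, 1, 0, false⟩],
      [⟨-1, 0, -4, false⟩],
      [⟨-5, -2, -20, false⟩],
      [⟨5, -4, -40, false⟩]]
  | _ => [[⟨0, 1, 0, true⟩],
      [⟨0, -1, 0, true⟩],
      [⟨1, 0, 12, false⟩, ⟨-1, 0, -8, false⟩],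
      [⟨1, 0, 4, false⟩, ⟨-1, 0, -4, false⟩],
      [⟨1, 0, -4, false⟩, ⟨-1, 0, 4, false⟩],
      [⟨1, 0, -8, false⟩, ⟨-1, 0, 12, false⟩]]

def hull2 : List Con2 := [⟨-7, -12, 84, false⟩, ⟨7, -12, 84, false⟩, ⟨5, 6, 60, false⟩, ⟨-5, 6, 60, false⟩]

def sg : ℕ → ℤ × ℤ
  | 0 => (1, 1)
  | 1 => (1, 0)
  | 2 => (0, 1)
  | 3 => (0, -1)
  | 4 => (-1, 0)
  | _ => (-1, -1)

def ln : ℕ → ℤ × ℤ
  | 0 => (0, 1)
  | 1 => (-1, -7)
  | 2 => (1, -1)
  | 3 => (-7, -4)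
  | 4 => (7, -8)
  | 5 => (2, 7)
  | 6 => (-2, 1)
  | 7 => (5, 2)
  | _ => (-5, 4)

def lineD (p : ℤ × ℤ) : List (List Con) :=
  [[⟨0, p.1, 0, 0, p.2, 0, 0, true⟩], [⟨0, -p.1, 0, 0, -p.2, 0, 0, true⟩],
   [⟨0, 0, p.1, 0, 0, p.2, 0, true⟩], [⟨0, 0, -p.1, 0, 0, -p.2, 0, true⟩]]

def DD (d : ℕ) : List (List Con) :=
  bif Nat.blt d 36 then
    (D2 (d % 6)).map (fun p => p.map (Con2.lift (sg (d / 6)).1 (sg (d / 6)).2))
  else lineD (ln (d - 36))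

def base : List Con :=
  ([0, 1, 2, 3, 4, 5] : List ℕ).flatMap (fun k => hull2.map (Con2.lift (sg k).1 (sg k).2))

def cases5 : ℕ → List Con
  | 0 => [⟨0, 1, -1, 0, 0, 0, 0, true⟩, ⟨0, 0, 1, 0, 0, 0, 0, true⟩]
  | 1 => [⟨0, 1, 0, 0, 0, 0, 0, true⟩, ⟨0, 0, 1, 0, 0, 0, 0, false⟩, ⟨0, 0, -1, 0, 0, 0, 0, false⟩, ⟨0, 0, 0, 0, 0, 1, 0, true⟩]
  | 2 => [⟨0, 1, 0, 0, 0, 0, 0, true⟩, ⟨0, 0, 1, 0, 0, 0, 0, false⟩, ⟨0, 0, -1, 0, 0, 0, 0, false⟩, ⟨0, 0, 0, 0, 0, -1, 0, true⟩]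
  | 3 => [⟨0, 1, 0, 0, 0, 0, 0, true⟩, ⟨0, 1, -1, 0, 0, 0, 0, false⟩, ⟨0, -1, 1, 0, 0, 0, 0, false⟩, ⟨0, 0, 0, 0, 1, -1, 0, true⟩]
  | _ => [⟨0, 1, 0, 0, 0, 0, 0, true⟩, ⟨0, 1, -1, 0, 0, 0, 0, false⟩, ⟨0, -1, 1, 0, 0, 0, 0, false⟩, ⟨0, 0, 0, 0, -1, 1, 0, true⟩]

end Pool.Agent.P.MP_e1e3b8_co
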