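import Pool.Agent.P.MP_e1e3b8_co.Data

/-! The decagon (12,0),(5,1),(4,0),(0,7),(-8,0),(-12,0),(-5,-2),(-4,0),(0,-10),(8,0) has no
inscribed non-degenerate affinely regular hexagon. -/

namespace Pool.Agent.P.MP_e1e3b8_co

/-- upper boundary function -/
noncomputable def up (x : ℝ) : ℝ :=
  max 0 (max (min (7 * x / 8 + 7) (7 - 7 * x / 4)) (min (x - 4) ((12 - x) / 7)))

/-- lower boundary function -/
noncomputable def lo (x : ℝ) : ℝ :=
  - max 0 (max (min (2 * (x + 12) / 7) (-2 * (x + 4))) (min (5 * (x + 4) / 2) (5 * (8 - x) / 4)))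

def OnJ (x y : ℝ) : Prop := -12 ≤ x ∧ x ≤ 12 ∧ (y = up x ∨ y = lo x)

theorem up_cases (x : ℝ) (h2 : x ≤ 12) :
    (x ≤ -8 ∧ up x = 0) ∨ (-8 ≤ x ∧ x ≤ 0 ∧ up x = 7 * x / 8 + 7) ∨
    (0 ≤ x ∧ x ≤ 4 ∧ up x = 7 - 7 * x / 4) ∨ (4 ≤ x ∧ x ≤ 5 ∧ up x = x - 4) ∨
    (5 ≤ x ∧ up x = (12 - x) / 7) := by
  unfold up
  rcases le_total x (-8) with a | a
  · left; refine ⟨a, ?_⟩
    simp only [max_def, min_def]; split_ifs <;> linarith
  rcases le_total x 0 with b | b
  · right; left; refine ⟨a, b, ?_⟩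
    simp only [max_def, min_def]; split_ifs <;> linarith
  rcases le_total x 4 with c | c
  · right; right; left; refine ⟨b, c, ?_⟩
    simp only [max_def, min_def]; split_ifs <;> linarith
  rcases le_total x 5 with d | d
  · right; right; right; left; refine ⟨c, d, ?_⟩
    simp only [max_def, min_def]; split_ifs <;> linarith
  · right; right; right; right; refine ⟨d, ?_⟩
    simp only [max_def, min_def]; split_ifs <;> linarith

theorem lo_cases (x : ℝ) (h1 : -12 ≤ x) :
    (x ≤ -5 ∧ lo x = -(2 * (x + 12) / 7)) ∨ (-5 ≤ x ∧ x ≤ -4 ∧ lo x = 2 * (x + 4)) ∨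
    (-4 ≤ x ∧ x ≤ 0 ∧ lo x = -(5 * (x + 4) / 2)) ∨ (0 ≤ x ∧ x ≤ 8 ∧ lo x = -(5 * (8 - x) / 4)) ∨
    (8 ≤ x ∧ lo x = 0) := by
  unfold lo
  rcases le_total x (-5) with a | a
  · left; refine ⟨a, ?_⟩
    simp only [max_def, min_def]; split_ifs <;> linarith
  rcases le_total x (-4) with b | b
  · right; left; refine ⟨a, b, ?_⟩
    simp only [max_def, min_def]; split_ifs <;> linarith
  rcases le_total x 0 with c | c
  · right; right; left; refine ⟨b, c, ?_⟩
    simp only [max_def, min_def]; split_ifs <;> linarith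
  rcases le_total x 8 with d | d
  · right; right; right; left; refine ⟨c, d, ?_⟩
    simp only [max_def, min_def]; split_ifs <;> linarith
  · right; right; right; right; refine ⟨d, ?_⟩
    simp only [max_def, min_def]; split_ifs <;> linarith

/-- the ten edges -/
theorem OnJ.edges {x y : ℝ} (h : OnJ x y) :
    (-12 ≤ x ∧ x ≤ -8 ∧ y = 0) ∨ (-8 ≤ x ∧ x ≤ 0 ∧ y = 7 * x / 8 + 7) ∨
    (0 ≤ x ∧ x ≤ 4 ∧ y = 7 - 7 * x / 4) ∨ (4 ≤ x ∧ x ≤ 5 ∧ y = x - 4) ∨
    (5 ≤ x ∧ x ≤ 12 ∧ y = (12 - x) / 7) ∨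
    (-12 ≤ x ∧ x ≤ -5 ∧ y = -(2 * (x + 12) / 7)) ∨ (-5 ≤ x ∧ x ≤ -4 ∧ y = 2 * (x + 4)) ∨
    (-4 ≤ x ∧ x ≤ 0 ∧ y = -(5 * (x + 4) / 2)) ∨ (0 ≤ x ∧ x ≤ 8 ∧ y = -(5 * (8 - x) / 4)) ∨
    (8 ≤ x ∧ x ≤ 12 ∧ y = 0) := by
  obtain ⟨h1, h2, h | h⟩ := h
  · rcases up_cases x h2 with a | a | a | a | a <;> rw [← h] at a
    · exact Or.inl ⟨h1, a⟩
    · exact Or.inr (Or.inl a)
    · exact Or.inr (Or.inr (Or.inl a))
    · exact Or.inr (Or.inr (Or.inr (Or.inl a)))
    · exact Or.inr (Or.inr (Or.inr (Or.inr (Or.inl ⟨a.1, h2, a.2⟩))))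
  · right; right; right; right; right
    rcases lo_cases x h1 with a | a | a | a | a <;> rw [← h] at a
    · exact Or.inl ⟨h1, a⟩
    · exact Or.inr (Or.inl a)
    · exact Or.inr (Or.inr (Or.inl a))
    · exact Or.inr (Or.inr (Or.inr (Or.inl a)))
    · exact Or.inr (Or.inr (Or.inr (Or.inr ⟨a.1, h2, a.2⟩)))

def All2 (p : List Con2) (x y : ℝ) : Prop := ∀ c ∈ p, c.Holds x y

theorem hull_ok {x y : ℝ} (h : OnJ x y) : All2 hull2 x y := by
  simp only [All2, hull2, List.forall_mem_cons, List.not_mem_nil, Con2.Holds]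
  push_cast
  rcases h.edges with h | h | h | h | h | h | h | h | h | h <;> obtain ⟨h1, h2, h3⟩ := h <;>
    simp <;> refine ⟨?_, ?_, ?_, ?_⟩ <;> linarith

theorem d2_ok {x y : ℝ} (h : OnJ x y) (j : ℕ) : ∃ p ∈ D2 j, All2 p x y := by
  have e := h.edges
  match j with
  | 0 =>
    simp [D2, All2, Con2.Holds]
    rcases lt_trichotomy y 0 with hy | hy | hy
    · rcases le_total x (-4) with hx | hx
      · right; right; left
        rcases e with h | h | h | h | h | h | h | h | h | h <;> obtain ⟨h1, h2, h3⟩ := h <;>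
          refine ⟨?_, ?_, ?_, ?_⟩ <;> linarith
      · right; right; right; left
        rcases e with h | h | h | h | h | h | h | h | h | h <;> obtain ⟨h1, h2, h3⟩ := h <;>
          refine ⟨?_, ?_, ?_, ?_⟩ <;> linarith
    · right; right; right; right; constructor <;> linarith
    · rcases le_total x 4 with hx | hx
      · right; left
        rcases e with h | h | h | h | h | h | h | h | h | h <;> obtain ⟨h1, h2, h3⟩ := h <;>
          refine ⟨?_, ?_, ?_, ?_⟩ <;> linarith
      · left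
        rcases e with h | h | h | h | h | h | h | h | h | h <;> obtain ⟨h1, h2, h3⟩ := h <;>
          refine ⟨?_, ?_, ?_, ?_⟩ <;> linarith
  | 1 =>
    simp [D2, All2, Con2.Holds]
    by_contra hc
    push Not at hc
    obtain ⟨c1, c2, c3, c4⟩ := hc
    rcases e with h | h | h | h | h | h | h | h | h | h <;> obtain ⟨h1, h2, h3⟩ := h <;> linarith
  | 2 =>
    simp [D2, All2, Con2.Holds]
    by_contra hc
    push Not at hc
    obtain ⟨c1, c2, c3, c4⟩ := hc
    rcases e with h | h | h | h | h | h | h | h | h | h <;> obtain ⟨h1, h2, h3⟩ := h <;> linarith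
  | 3 =>
    simp [D2, All2, Con2.Holds]
    by_contra hc
    push Not at hc
    obtain ⟨c1, c2, c3, c4⟩ := hc
    rcases e with h | h | h | h | h | h | h | h | h | h <;> obtain ⟨h1, h2, h3⟩ := h <;> linarith
  | 4 =>
    simp [D2, All2, Con2.Holds]
    by_contra hc
    push Not at hc
    obtain ⟨c1, c2, c3, c4⟩ := hc
    rcases e with h | h | h | h | h | h | h | h | h | h <;> obtain ⟨h1, h2, h3⟩ := h <;> linarith
  | n + 5 =>
    simp [D2, All2, Con2.Holds]
    rcases lt_trichotomy y 0 with hy | hy | hy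
    · right; left; constructor <;> linarith
    · right; right
      rcases e with h | h | h | h | h | h | h | h | h | h <;> obtain ⟨h1, h2, h3⟩ := h
      · left; constructor <;> linarith
      · left; constructor <;> linarith
      · right; right; left; constructor <;> linarith
      · right; right; left; constructor <;> linarith
      · right; right; right; constructor <;> linarith
      · left; constructor <;> linarith
      · right; left; constructor <;> linarith
      · right; left; constructor <;> linarith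
      · right; right; right; constructor <;> linarith
      · right; right; right; constructor <;> linarith
    · left; constructor <;> linarith

/-- six points `b ± u`, `b ± v`, `b ± (u + v)` on the curve with `u, v` independent -/
structure Hex (b c1 c2 e d1 d2 : ℝ) : Prop where
  p0 : OnJ (b + c1 + c2) (e + d1 + d2)
  p1 : OnJ (b + c1) (e + d1)
  p2 : OnJ (b + c2) (e + d2)
  p3 : OnJ (b - c2) (e - d2)
  p4 : OnJ (b - c1) (e - d1)
  p5 : OnJ (b - c1 - c2) (e - d1 - d2)
  det : c1 * d2 - c2 * d1 ≠ 0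

theorem Hex.sg {b c1 c2 e d1 d2 : ℝ} (h : Hex b c1 c2 e d1 d2) (k : ℕ) :
    OnJ (b + (sg k).1 * c1 + (sg k).2 * c2) (e + (sg k).1 * d1 + (sg k).2 * d2) := by
  match k with
  | 0 => simpa [MP_e1e3b8_co.sg] using h.p0
  | 1 => simpa [MP_e1e3b8_co.sg] using h.p1
  | 2 => simpa [MP_e1e3b8_co.sg] using h.p2
  | 3 => simpa [MP_e1e3b8_co.sg, sub_eq_add_neg] using h.p3
  | 4 => simpa [MP_e1e3b8_co.sg, sub_eq_add_neg] using h.p4
  | n + 5 => simpa [MP_e1e3b8_co.sg, sub_eq_add_neg] using h.p5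

theorem ln_ne (i : ℕ) : (ln i).2 ≠ 0 := by
  match i with
  | 0 | 1 | 2 | 3 | 4 | 5 | 6 | 7 => simp [ln]
  | n + 8 => simp [ln]

theorem Hex.dd {b c1 c2 e d1 d2 : ℝ} (h : Hex b c1 c2 e d1 d2) (d : ℕ) :
    ∃ p ∈ DD d, AllHold p ⟨b, c1, c2, e, d1, d2⟩ := by
  unfold DD
  cases Nat.blt d 36
  · have hb : (((ln (d - 36)).2 : ℤ) : ℝ) ≠ 0 := by exact_mod_cast ln_ne (d - 36)
    generalize ln (d - 36) = q at hb
    obtain ⟨p, q⟩ := q
    simp only [cond_false, lineD, List.mem_cons, List.not_mem_nil, or_false, exists_eq_or_imp,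
      exists_eq_left, AllHold, forall_eq, Con.Holds, Con.ev]
    push_cast
    simp only [zero_mul, zero_add, add_zero, forall_const]
    simp only at hb
    have hd := h.det
    by_contra hc
    push Not at hc
    obtain ⟨k1, k2, k3, k4⟩ := hc
    have e1 : p * c1 + q * d1 = 0 := by
      by_contra hne
      rcases lt_or_gt_of_ne hne with g | g
      · have := k2 (by linarith); linarith
      · have := k1 (by linarith); linarith
    have e2 : p * c2 + q * d2 = 0 := by
      by_contra hne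
      rcases lt_or_gt_of_ne hne with g | g
      · have := k4 (by linarith); linarith
      · have := k3 (by linarith); linarith
    apply mul_ne_zero hb hd
    linear_combination c1 * e2 - c2 * e1
  · obtain ⟨p, hp, hp2⟩ := d2_ok (h.sg (d / 6)) (d % 6)
    refine ⟨_, List.mem_map_of_mem hp, ?_⟩
    intro c hc
    obtain ⟨c', hc', rfl⟩ := List.mem_map.1 hc
    exact Con2.lift_holds _ _ _ _ (hp2 c' hc')

theorem Hex.base {b c1 c2 e d1 d2 : ℝ} (h : Hex b c1 c2 e d1 d2) :
    AllHold base ⟨b, c1, c2, e, d1, d2⟩ := by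
  intro c hc
  obtain ⟨k, _, hk⟩ := List.mem_flatMap.1 hc
  obtain ⟨c', hc', rfl⟩ := List.mem_map.1 hk
  exact Con2.lift_holds _ _ _ _ (hull_ok (h.sg k) c' hc')

theorem Hex.fin {b c1 c2 e d1 d2 : ℝ} (h : Hex b c1 c2 e d1 d2) (i : ℕ) (t : Tr)
    (ht : chk DD t (cases5 i ++ MP_e1e3b8_co.base) [[]] = true)
    (hi : AllHold (cases5 i) ⟨b, c1, c2, e, d1, d2⟩) : False := by
  refine chk_sound DD _ h.dd t _ _ ht ?_ ⟨[], by simp, by simp [AllHold]⟩
  intro c hc
  rcases List.mem_append.1 hc with h' | h'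
  · exact hi c h'
  · exact h.base c h'

theorem Hex.core {b c1 c2 e d1 d2 : ℝ} (h : Hex b c1 c2 e d1 d2) (h1 : c2 ≤ c1) (h2 : 0 ≤ c2) :
    False := by
  have hd := h.det
  rcases h2.eq_or_lt with h2 | h2
  · have hc : 0 < c1 := by
      rcases (h2.le.trans h1).eq_or_lt with g | g
      · exact absurd (by rw [← g, ← h2]; ring) hd
      · exact g
    have hd2 : d2 ≠ 0 := fun g => hd (by rw [g, ← h2]; ring)
    rcases lt_or_gt_of_ne hd2 with g | g
    · refine h.fin 2 tr2 chk2 ?_
      simp [AllHold, cases5, Con.Holds, Con.ev]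
      refine ⟨⟨?_, ?_⟩, ?_, ?_, ?_, ?_⟩ <;> linarith
    · refine h.fin 1 tr1 chk1 ?_
      simp [AllHold, cases5, Con.Holds, Con.ev]
      refine ⟨⟨?_, ?_⟩, ?_, ?_, ?_, ?_⟩ <;> linarith
  rcases h1.eq_or_lt with h1 | h1
  · have hd2 : d1 ≠ d2 := fun g => hd (by rw [g, h1]; ring)
    rcases lt_or_gt_of_ne hd2 with g | g
    · refine h.fin 4 tr4 chk4 ?_
      simp [AllHold, cases5, Con.Holds, Con.ev]
      refine ⟨⟨?_, ?_⟩, ?_, ?_, ?_, ?_⟩ <;> linarith
    · refine h.fin 3 tr3 chk3 ?_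
      simp [AllHold, cases5, Con.Holds, Con.ev]
      refine ⟨⟨?_, ?_⟩, ?_, ?_, ?_, ?_⟩ <;> linarith
  · refine h.fin 0 tr0 chk0 ?_
    simp [AllHold, cases5, Con.Holds, Con.ev]
    refine ⟨⟨?_, ?_⟩, ?_, ?_⟩ <;> linarith

theorem Hex.swap {b c1 c2 e d1 d2 : ℝ} (h : Hex b c1 c2 e d1 d2) : Hex b c2 c1 e d2 d1 :=
  ⟨by convert! h.p0 using 1 <;> ring, h.p2, h.p1, h.p4, h.p3, by convert! h.p5 using 1 <;> ring,
    fun g => h.det (by linarith)⟩

theorem Hex.neg {b c1 c2 e d1 d2 : ℝ} (h : Hex b c1 c2 e d1 d2) :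
    Hex b (-c1) (-c2) e (-d1) (-d2) :=
  ⟨by convert! h.p5 using 1 <;> ring, by convert! h.p4 using 1 <;> ring,
    by convert! h.p3 using 1 <;> ring, by convert! h.p2 using 1 <;> ring,
    by convert! h.p1 using 1 <;> ring, by convert! h.p0 using 1 <;> ring,
    fun g => h.det (by linarith)⟩

theorem Hex.rot {b c1 c2 e d1 d2 : ℝ} (h : Hex b c1 c2 e d1 d2) :
    Hex b (c1 + c2) (-c2) e (d1 + d2) (-d2) :=
  ⟨by convert! h.p1 using 1 <;> ring, by convert! h.p0 using 1 <;> ring,
    by convert! h.p3 using 1 <;> ring, by convert! h.p2 using 1 <;> ring,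
    by convert! h.p5 using 1 <;> ring, by convert! h.p4 using 1 <;> ring,
    fun g => h.det (by linarith)⟩

theorem Hex.core1 {b c1 c2 e d1 d2 : ℝ} (h : Hex b c1 c2 e d1 d2) (h1 : 0 ≤ c1) (h2 : 0 ≤ c2) :
    False := by
  rcases le_total c2 c1 with g | g
  · exact h.core g h2
  · exact h.swap.core g h1

theorem Hex.core2 {b c1 c2 e d1 d2 : ℝ} (h : Hex b c1 c2 e d1 d2) (h1 : 0 ≤ c1) (h2 : c2 ≤ 0) :
    False := by
  rcases le_total 0 (c1 + c2) with g | g
  · exact h.rot.core1 g (by linarith)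
  · exact h.swap.rot.neg.core1 (by linarith) (by linarith)

theorem Hex.false {b c1 c2 e d1 d2 : ℝ} (h : Hex b c1 c2 e d1 d2) : False := by
  rcases le_total 0 c1 with h1 | h1 <;> rcases le_total 0 c2 with h2 | h2
  · exact h.core1 h1 h2
  · exact h.core2 h1 h2
  · exact h.swap.core2 h2 h1
  · exact h.neg.core1 (by linarith) (by linarith)

/-- the parametrisation of the decagon by the unit circle -/
noncomputable def curve (z : Circle) : ℂ :=
  ((12 * (z : ℂ).re : ℝ) : ℂ) +
    ((if 0 ≤ (z : ℂ).im then up (12 * (z : ℂ).re) else lo (12 * (z : ℂ).re) : ℝ) : ℂ) * Complex.I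

theorem circ_sq (z : Circle) : (z : ℂ).re ^ 2 + (z : ℂ).im ^ 2 = 1 := by
  have := Circle.normSq_coe z
  rw [Complex.normSq_apply] at this
  linarith

theorem curve_re (z : Circle) : (curve z).re = 12 * (z : ℂ).re := by
  simp only [curve, Complex.add_re, Complex.ofReal_re, Complex.mul_re, Complex.I_re,
    Complex.ofReal_im, Complex.I_im]
  ring

theorem curve_im (z : Circle) : (curve z).im =
    if 0 ≤ (z : ℂ).im then up (12 * (z : ℂ).re) else lo (12 * (z : ℂ).re) := by
  simp only [curve, Complex.add_im, Complex.ofReal_re, Complex.mul_im, Complex.I_re,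
    Complex.ofReal_im, Complex.I_im]
  ring

theorem curve_onJ (z : Circle) : OnJ (curve z).re (curve z).im := by
  have h := circ_sq z
  rw [curve_re, curve_im]
  refine ⟨by nlinarith [sq_nonneg ((z : ℂ).re + 1), sq_nonneg (z : ℂ).im],
    by nlinarith [sq_nonneg ((z : ℂ).re - 1), sq_nonneg (z : ℂ).im], ?_⟩
  split_ifs
  · exact Or.inl rfl
  · exact Or.inr rfl

theorem up_cont : Continuous up := by unfold up; fun_prop

theorem lo_cont : Continuous lo := by unfold lo; fun_prop

theorem up_eq_lo_iff (x : ℝ) (h1 : -12 ≤ x) (h2 : x ≤ 12) : up x = lo x ↔ x = -12 ∨ x = 12 := by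
  constructor
  · intro h
    rcases up_cases x h2 with a | a | a | a | a <;> rcases lo_cases x h1 with b | b | b | b | b <;>
      first
      | (left; linarith [a.1, a.2, b.1, b.2])
      | (right; linarith [a.1, a.2, b.1, b.2])
      | (exfalso; linarith [a.1, a.2, b.1, b.2.1, b.2.2])
      | (exfalso; linarith [a.1, a.2.1, a.2.2, b.1, b.2])
      | (exfalso; linarith [a.1, a.2.1, a.2.2, b.1, b.2.1, b.2.2])
  · rintro (rfl | rfl) <;> norm_num [up, lo]

theorem curve_cont : Continuous curve := by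
  have hre : Continuous fun z : Circle => 12 * (z : ℂ).re := by fun_prop
  have him : Continuous fun z : Circle => (z : ℂ).im := by fun_prop
  have h : Continuous fun z : Circle =>
      (if 0 ≤ (z : ℂ).im then up (12 * (z : ℂ).re) else lo (12 * (z : ℂ).re) : ℝ) := by
    refine Continuous.if_le (up_cont.comp hre) (lo_cont.comp hre) continuous_const him ?_
    intro z hz
    have h := circ_sq z
    rw [← hz] at h
    have h' : ((z : ℂ).re + 1) * ((z : ℂ).re - 1) = 0 := by linarith
    rcases mul_eq_zero.1 h' with g | g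
    · have : 12 * (z : ℂ).re = -12 := by linarith
      rw [this]; norm_num [up, lo]
    · have : 12 * (z : ℂ).re = 12 := by linarith
      rw [this]; norm_num [up, lo]
  unfold curve
  exact (Complex.continuous_ofReal.comp hre).add
    ((Complex.continuous_ofReal.comp h).mul continuous_const)

theorem curve_inj : Function.Injective curve := by
  intro z w h
  have hre : (z : ℂ).re = (w : ℂ).re := by
    have := congrArg Complex.re h
    rw [curve_re, curve_re] at this; linarith
  have him := congrArg Complex.im h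
  rw [curve_im, curve_im, hre] at him
  have hz := circ_sq z
  have hw := circ_sq w
  rw [hre] at hz
  have b1 : -12 ≤ 12 * (w : ℂ).re := by
    nlinarith [sq_nonneg ((w : ℂ).re + 1), sq_nonneg (w : ℂ).im]
  have b2 : 12 * (w : ℂ).re ≤ 12 := by
    nlinarith [sq_nonneg ((w : ℂ).re - 1), sq_nonneg (w : ℂ).im]
  have key : up (12 * (w : ℂ).re) = lo (12 * (w : ℂ).re) → (z : ℂ).im = 0 ∧ (w : ℂ).im = 0 := by
    intro g
    have : (w : ℂ).re ^ 2 = 1 := by
      rcases (up_eq_lo_iff _ b1 b2).1 g with g | g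
      · have : (w : ℂ).re = -1 := by linarith
        rw [this]; norm_num
      · have : (w : ℂ).re = 1 := by linarith
        rw [this]; norm_num
    exact ⟨pow_eq_zero_iff (n := 2) (by norm_num) |>.1 (by linarith),
      pow_eq_zero_iff (n := 2) (by norm_num) |>.1 (by linarith)⟩
  have hsq : ((z : ℂ).im - (w : ℂ).im) * ((z : ℂ).im + (w : ℂ).im) = 0 := by linarith
  have : (z : ℂ).im = (w : ℂ).im := by
    split_ifs at him with g1 g2 g2
    · rcases mul_eq_zero.1 hsq with g | g <;> linarith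
    · have := key him; linarith [this.1, this.2]
    · have := key him.symm; linarith [this.1, this.2]
    · rcases mul_eq_zero.1 hsq with g | g <;> linarith
  exact Circle.ext (Complex.ext hre this)

end Pool.Agent.P.MP_e1e3b8_co
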