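import Pool.Agent.P.MP_e1e3b8_co.Curve

/-! The decagon as a union of ten segments in the plane. -/

namespace Pool.Agent.P.MP_e1e3b8_co

open Matrix

/-- the vertices of the decagon -/
def vert : Fin 10 → Fin 2 → ℝ :=
  ![![12, 0], ![5, 1], ![4, 0], ![0, 7], ![-8, 0], ![-12, 0], ![-5, -2], ![-4, 0], ![0, -10],
    ![8, 0]]

theorem onJ_up {x y : ℝ} (h1 : -12 ≤ x) (h2 : x ≤ 12)
    (h : (x ≤ -8 ∧ y = 0) ∨ (-8 ≤ x ∧ x ≤ 0 ∧ y = 7 * x / 8 + 7) ∨
      (0 ≤ x ∧ x ≤ 4 ∧ y = 7 - 7 * x / 4) ∨ (4 ≤ x ∧ x ≤ 5 ∧ y = x - 4) ∨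
      (5 ≤ x ∧ y = (12 - x) / 7)) : OnJ x y := by
  refine ⟨h1, h2, Or.inl ?_⟩
  rcases up_cases x h2 with ⟨a, e⟩ | ⟨a, a', e⟩ | ⟨a, a', e⟩ | ⟨a, a', e⟩ | ⟨a, e⟩ <;>
    rcases h with ⟨b, f⟩ | ⟨b, b', f⟩ | ⟨b, b', f⟩ | ⟨b, b', f⟩ | ⟨b, f⟩ <;> linarith

theorem onJ_lo {x y : ℝ} (h1 : -12 ≤ x) (h2 : x ≤ 12)
    (h : (x ≤ -5 ∧ y = -(2 * (x + 12) / 7)) ∨ (-5 ≤ x ∧ x ≤ -4 ∧ y = 2 * (x + 4)) ∨
      (-4 ≤ x ∧ x ≤ 0 ∧ y = -(5 * (x + 4) / 2)) ∨ (0 ≤ x ∧ x ≤ 8 ∧ y = -(5 * (8 - x) / 4)) ∨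
      (8 ≤ x ∧ y = 0)) : OnJ x y := by
  refine ⟨h1, h2, Or.inr ?_⟩
  rcases lo_cases x h1 with ⟨a, e⟩ | ⟨a, a', e⟩ | ⟨a, a', e⟩ | ⟨a, a', e⟩ | ⟨a, e⟩ <;>
    rcases h with ⟨b, f⟩ | ⟨b, b', f⟩ | ⟨b, b', f⟩ | ⟨b, b', f⟩ | ⟨b, f⟩ <;> linarith

theorem mem_seg {p : Fin 2 → ℝ} {a b c d : ℝ} :
    p ∈ segment ℝ (![a, b] : Fin 2 → ℝ) ![c, d] ↔
      ∃ s t : ℝ, 0 ≤ s ∧ 0 ≤ t ∧ s + t = 1 ∧ s * a + t * c = p 0 ∧ s * b + t * d = p 1 := by
  constructor
  · rintro ⟨s, t, hs, ht, hst, rfl⟩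
    exact ⟨s, t, hs, ht, hst, by simp, by simp⟩
  · rintro ⟨s, t, hs, ht, hst, h0, h1⟩
    refine ⟨s, t, hs, ht, hst, ?_⟩
    ext i
    fin_cases i
    · simpa using h0
    · simpa using h1

theorem mem_poly (p : Fin 2 → ℝ) :
    p ∈ (⋃ i : Fin 10, segment ℝ (vert i) (vert (i + 1))) ↔ OnJ (p 0) (p 1) := by
  rw [Set.mem_iUnion]
  constructor
  · rintro ⟨i, hi⟩
    fin_cases i
    · obtain ⟨s, t, hs, ht, hst, h0, h1⟩ := (mem_seg (a := 12) (b := 0) (c := 5) (d := 1)).1 hi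
      exact onJ_up (by linarith) (by linarith)
        (Or.inr (Or.inr (Or.inr (Or.inr ⟨by linarith, by linarith⟩))))
    · obtain ⟨s, t, hs, ht, hst, h0, h1⟩ := (mem_seg (a := 5) (b := 1) (c := 4) (d := 0)).1 hi
      exact onJ_up (by linarith) (by linarith)
        (Or.inr (Or.inr (Or.inr (Or.inl ⟨by linarith, by linarith, by linarith⟩))))
    · obtain ⟨s, t, hs, ht, hst, h0, h1⟩ := (mem_seg (a := 4) (b := 0) (c := 0) (d := 7)).1 hi
      exact onJ_up (by linarith) (by linarith)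
        (Or.inr (Or.inr (Or.inl ⟨by linarith, by linarith, by linarith⟩)))
    · obtain ⟨s, t, hs, ht, hst, h0, h1⟩ := (mem_seg (a := 0) (b := 7) (c := -8) (d := 0)).1 hi
      exact onJ_up (by linarith) (by linarith)
        (Or.inr (Or.inl ⟨by linarith, by linarith, by linarith⟩))
    · obtain ⟨s, t, hs, ht, hst, h0, h1⟩ := (mem_seg (a := -8) (b := 0) (c := -12) (d := 0)).1 hi
      exact onJ_up (by linarith) (by linarith) (Or.inl ⟨by linarith, by linarith⟩)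
    · obtain ⟨s, t, hs, ht, hst, h0, h1⟩ := (mem_seg (a := -12) (b := 0) (c := -5) (d := -2)).1 hi
      exact onJ_lo (by linarith) (by linarith) (Or.inl ⟨by linarith, by linarith⟩)
    · obtain ⟨s, t, hs, ht, hst, h0, h1⟩ := (mem_seg (a := -5) (b := -2) (c := -4) (d := 0)).1 hi
      exact onJ_lo (by linarith) (by linarith)
        (Or.inr (Or.inl ⟨by linarith, by linarith, by linarith⟩))
    · obtain ⟨s, t, hs, ht, hst, h0, h1⟩ := (mem_seg (a := -4) (b := 0) (c := 0) (d := -10)).1 hi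
      exact onJ_lo (by linarith) (by linarith)
        (Or.inr (Or.inr (Or.inl ⟨by linarith, by linarith, by linarith⟩)))
    · obtain ⟨s, t, hs, ht, hst, h0, h1⟩ := (mem_seg (a := 0) (b := -10) (c := 8) (d := 0)).1 hi
      exact onJ_lo (by linarith) (by linarith)
        (Or.inr (Or.inr (Or.inr (Or.inl ⟨by linarith, by linarith, by linarith⟩))))
    · obtain ⟨s, t, hs, ht, hst, h0, h1⟩ := (mem_seg (a := 8) (b := 0) (c := 12) (d := 0)).1 hi
      exact onJ_lo (by linarith) (by linarith)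
        (Or.inr (Or.inr (Or.inr (Or.inr ⟨by linarith, by linarith⟩))))
  · intro h
    rcases h.edges with ⟨a, b, e⟩ | ⟨a, b, e⟩ | ⟨a, b, e⟩ | ⟨a, b, e⟩ | ⟨a, b, e⟩ | ⟨a, b, e⟩ |
      ⟨a, b, e⟩ | ⟨a, b, e⟩ | ⟨a, b, e⟩ | ⟨a, b, e⟩
    · exact ⟨4, (mem_seg (a := -8) (b := 0) (c := -12) (d := 0)).2
        ⟨(p 0 + 12) / 4, (-8 - p 0) / 4, by linarith, by linarith, by ring, by ring, by linarith⟩⟩
    · exact ⟨3, (mem_seg (a := 0) (b := 7) (c := -8) (d := 0)).2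
        ⟨(p 0 + 8) / 8, (-p 0) / 8, by linarith, by linarith, by ring, by ring, by linarith⟩⟩
    · exact ⟨2, (mem_seg (a := 4) (b := 0) (c := 0) (d := 7)).2
        ⟨(p 0) / 4, (4 - p 0) / 4, by linarith, by linarith, by ring, by ring, by linarith⟩⟩
    · exact ⟨1, (mem_seg (a := 5) (b := 1) (c := 4) (d := 0)).2
        ⟨p 0 - 4, 5 - p 0, by linarith, by linarith, by ring, by ring, by linarith⟩⟩
    · exact ⟨0, (mem_seg (a := 12) (b := 0) (c := 5) (d := 1)).2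
        ⟨(p 0 - 5) / 7, (12 - p 0) / 7, by linarith, by linarith, by ring, by ring, by linarith⟩⟩
    · exact ⟨5, (mem_seg (a := -12) (b := 0) (c := -5) (d := -2)).2
        ⟨(-5 - p 0) / 7, (p 0 + 12) / 7, by linarith, by linarith, by ring, by ring, by linarith⟩⟩
    · exact ⟨6, (mem_seg (a := -5) (b := -2) (c := -4) (d := 0)).2
        ⟨-4 - p 0, p 0 + 5, by linarith, by linarith, by ring, by ring, by linarith⟩⟩
    · exact ⟨7, (mem_seg (a := -4) (b := 0) (c := 0) (d := -10)).2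
        ⟨(-p 0) / 4, (p 0 + 4) / 4, by linarith, by linarith, by ring, by ring, by linarith⟩⟩
    · exact ⟨8, (mem_seg (a := 0) (b := -10) (c := 8) (d := 0)).2
        ⟨(8 - p 0) / 8, (p 0) / 8, by linarith, by linarith, by ring, by ring, by linarith⟩⟩
    · exact ⟨9, (mem_seg (a := 8) (b := 0) (c := 12) (d := 0)).2
        ⟨(12 - p 0) / 4, (p 0 - 8) / 4, by linarith, by linarith, by ring, by ring, by linarith⟩⟩

/-- the parametrisation with values in pairs of reals -/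
noncomputable def curve2 (z : Circle) : Fin 2 → ℝ := ![(curve z).re, (curve z).im]

theorem curve2_cont : Continuous curve2 := by
  refine continuous_pi fun i => ?_
  fin_cases i
  · exact Complex.continuous_re.comp curve_cont
  · exact Complex.continuous_im.comp curve_cont

theorem curve2_inj : Function.Injective curve2 := by
  intro z w h
  exact curve_inj (Complex.ext (congrFun h 0) (congrFun h 1))

theorem exists_circle (x y : ℝ) (h : x ^ 2 + y ^ 2 = 1) :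
    ∃ z : Circle, (z : ℂ).re = x ∧ (z : ℂ).im = y := by
  refine ⟨⟨⟨x, y⟩, ?_⟩, rfl, rfl⟩
  have : Complex.normSq ⟨x, y⟩ = 1 := by rw [Complex.normSq_apply]; linarith
  simp only [Submonoid.unitSphere, Submonoid.mem_mk, Subsemigroup.mem_mk,
    mem_sphere_zero_iff_norm]
  rw [Complex.norm_def, this, Real.sqrt_one]

theorem range_curve2 :
    Set.range curve2 = ⋃ i : Fin 10, segment ℝ (vert i) (vert (i + 1)) := by
  ext p
  rw [mem_poly]
  constructor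
  · rintro ⟨z, rfl⟩
    exact curve_onJ z
  · rintro ⟨h1, h2, h⟩
    have hn : 0 ≤ 1 - (p 0 / 12) ^ 2 := by nlinarith
    have hs := Real.sq_sqrt hn
    have hs0 := Real.sqrt_nonneg (1 - (p 0 / 12) ^ 2)
    have fin : ∀ z : Circle, (z : ℂ).re = p 0 / 12 → (curve z).im = p 1 → curve2 z = p := by
      intro z hz hi
      ext i
      fin_cases i
      · show (curve z).re = p 0
        rw [curve_re, hz]; ring
      · exact hi
    have e12 : 12 * (p 0 / 12) = p 0 := by ring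
    rcases h with h | h
    · obtain ⟨z, hz, hi⟩ := exists_circle (p 0 / 12) (√(1 - (p 0 / 12) ^ 2)) (by linarith)
      refine ⟨z, fin z hz ?_⟩
      rw [curve_im, hz, hi, if_pos hs0, e12, h]
    · obtain ⟨z, hz, hi⟩ := exists_circle (p 0 / 12) (-√(1 - (p 0 / 12) ^ 2)) (by linarith)
      refine ⟨z, fin z hz ?_⟩
      rw [curve_im, hz, hi, e12, h]
      split_ifs with g
      · have g0 : √(1 - (p 0 / 12) ^ 2) = 0 := by linarith
        rw [g0] at hs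
        have : (p 0 + 12) * (p 0 - 12) = 0 := by linarith
        refine (up_eq_lo_iff _ h1 h2).2 ?_
        rcases mul_eq_zero.1 this with g | g
        · left; linarith
        · right; linarith
      · rfl

theorem poly_jordan :
    Nonempty ((⋃ i : Fin 10, segment ℝ (vert i) (vert (i + 1)) : Set (Fin 2 → ℝ)) ≃ₜ Circle) := by
  rw [← range_curve2]
  exact ⟨(curve2_cont.isClosedEmbedding curve2_inj).isEmbedding.toHomeomorph.symm⟩

theorem poly_no_hex (M : Matrix (Fin 2) (Fin 2) ℝ) (b : Fin 2 → ℝ) (hM : M.det ≠ 0)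
    (h : ∀ k : Fin 6, M *ᵥ ![Real.cos ((k : ℕ) * Real.pi / 3), Real.sin ((k : ℕ) * Real.pi / 3)] + b
      ∈ ⋃ i : Fin 10, segment ℝ (vert i) (vert (i + 1))) : False := by
  have hk : ∀ (k : Fin 6) (c s : ℝ), Real.cos ((k : ℕ) * Real.pi / 3) = c →
      Real.sin ((k : ℕ) * Real.pi / 3) = s → ∀ x y : ℝ, x = M 0 0 * c + M 0 1 * s + b 0 →
      y = M 1 0 * c + M 1 1 * s + b 1 → OnJ x y := by
    intro k c s hc hs x y hx hy
    have := (mem_poly _).1 (h k)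
    rw [hc, hs] at this
    simpa [hx, hy, Matrix.mulVec, dotProduct, Fin.sum_univ_two] using this
  have c1 := Real.cos_pi_div_three
  have s1 := Real.sin_pi_div_three
  have hs : √3 ≠ 0 := by positivity
  refine Hex.false (b := b 0) (c1 := M 0 0 / 2 + M 0 1 * √3 / 2) (c2 := M 0 0 / 2 - M 0 1 * √3 / 2)
    (e := b 1) (d1 := M 1 0 / 2 + M 1 1 * √3 / 2) (d2 := M 1 0 / 2 - M 1 1 * √3 / 2)
    ⟨?_, ?_, ?_, ?_, ?_, ?_, ?_⟩
  · exact hk 0 1 0 (by simp) (by simp) _ _ (by ring) (by ring)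
  · exact hk 1 (1 / 2) (√3 / 2) (by simpa using c1) (by simpa using s1) _ _ (by ring) (by ring)
  · have e : ((5 : Fin 6) : ℕ) * Real.pi / 3 = 2 * Real.pi - Real.pi / 3 := by
      show ((5 : ℕ) : ℝ) * Real.pi / 3 = _
      push_cast; ring
    exact hk 5 (1 / 2) (-(√3 / 2)) (by rw [e, Real.cos_two_pi_sub, c1])
      (by rw [e, Real.sin_two_pi_sub, s1]) _ _ (by ring) (by ring)
  · have e : ((2 : Fin 6) : ℕ) * Real.pi / 3 = Real.pi - Real.pi / 3 := by
      show ((2 : ℕ) : ℝ) * Real.pi / 3 = _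
      push_cast; ring
    exact hk 2 (-(1 / 2)) (√3 / 2) (by rw [e, Real.cos_pi_sub, c1])
      (by rw [e, Real.sin_pi_sub, s1]) _ _ (by ring) (by ring)
  · have e : ((4 : Fin 6) : ℕ) * Real.pi / 3 = Real.pi / 3 + Real.pi := by
      show ((4 : ℕ) : ℝ) * Real.pi / 3 = _
      push_cast; ring
    exact hk 4 (-(1 / 2)) (-(√3 / 2)) (by rw [e, Real.cos_add_pi, c1])
      (by rw [e, Real.sin_add_pi, s1]) _ _ (by ring) (by ring)
  · have e : ((3 : Fin 6) : ℕ) * Real.pi / 3 = Real.pi := by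
      show ((3 : ℕ) : ℝ) * Real.pi / 3 = _
      push_cast; ring
    exact hk 3 (-1) 0 (by rw [e, Real.cos_pi]) (by rw [e, Real.sin_pi]) _ _ (by ring) (by ring)
  · intro hd
    rw [Matrix.det_fin_two] at hM
    have : √3 * (M 0 0 * M 1 1 - M 0 1 * M 1 0) = 0 := by linarith
    exact (mul_ne_zero hs hM) this

end Pool.Agent.P.MP_e1e3b8_co
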